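import Mathlib
import Pool.Agent.Helper6.CarathB

/-!
Sharp coefficient bounds for the Carathéodory family of the Euclidean ball of `ℂⁿ`:
`C_{m,n} = √((m+1)^{m+1} / m^m)` for all `m, n ≥ 2`.
-/

namespace Pool.Agent.Results.MP_2482e1_an.SharpCoefficients

open Set Filter Topology Metric

/-- The Carathéodory family `𝓜` of the Euclidean unit ball of `ℂⁿ`.  Mathlib's `inner ℂ z w` is
`∑ conj (z j) * w j`, so `(inner ℂ z (h z)).re = Re ⟨h(z), z⟩`. -/
def CarathFamily (n : ℕ) : Set (EuclideanSpace ℂ (Fin n) → EuclideanSpace ℂ (Fin n)) :=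
  {h | AnalyticOnNhd ℂ h (ball 0 1) ∧ h 0 = 0 ∧
    fderiv ℂ h 0 = ContinuousLinearMap.id ℂ (EuclideanSpace ℂ (Fin n)) ∧
    ∀ z ∈ ball (0 : EuclideanSpace ℂ (Fin n)) 1, z ≠ 0 → 0 < (inner ℂ z (h z)).re}

/-- `P_m(z) = (1/m!) D^m h(0)(z, …, z)`. -/
noncomputable def P {n : ℕ} (h : EuclideanSpace ℂ (Fin n) → EuclideanSpace ℂ (Fin n)) (m : ℕ)
    (z : EuclideanSpace ℂ (Fin n)) : EuclideanSpace ℂ (Fin n) :=
  ((m.factorial : ℂ))⁻¹ • iteratedFDeriv ℂ m h 0 fun _ => z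

/-- `‖P_m‖ = sup {‖P_m(z)‖ : ‖z‖ = 1}`. -/
noncomputable def normP {n : ℕ} (h : EuclideanSpace ℂ (Fin n) → EuclideanSpace ℂ (Fin n))
    (m : ℕ) : ℝ :=
  sSup {c : ℝ | ∃ z : EuclideanSpace ℂ (Fin n), ‖z‖ = 1 ∧ c = ‖P h m z‖}

/-- `C_{m,n} = sup {‖P_m‖ : h ∈ 𝓜}`. -/
noncomputable def C (m n : ℕ) : ℝ := sSup {c : ℝ | ∃ h ∈ CarathFamily n, c = normP h m}

lemma P_le {n : ℕ} {h : EuclideanSpace ℂ (Fin n) → EuclideanSpace ℂ (Fin n)}
    (hh : h ∈ CarathFamily n) {m : ℕ} (hm : 2 ≤ m) (z : EuclideanSpace ℂ (Fin n)) (hz : ‖z‖ = 1) :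
    ‖P h m z‖ ≤ Carath.qc m := by
  obtain ⟨ha, h0, hd, hpos⟩ := hh
  obtain ⟨p, r, hp⟩ := ha 0 (mem_ball_self one_pos)
  have e : P h m z = p m fun _ => z := by
    unfold P
    rw [← hp.factorial_smul z m]
    have : (m.factorial : ℂ) ≠ 0 := by exact_mod_cast m.factorial_ne_zero
    rw [← Nat.cast_smul_eq_nsmul ℂ, smul_smul, inv_mul_cancel₀ this, one_smul]
  rw [e]
  apply Carath.norm_coeff_le ha hp.hasFPowerSeriesAt h0 hd ?_ m hm z hz
  intro w hw
  by_cases hw0 : w = 0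
  · rw [hw0]; simp
  · exact (hpos w hw hw0).le

/-- weighted AM-GM -/
lemma amgm (m : ℕ) (hm : 1 ≤ m) (A Y : ℝ) (hA : 0 ≤ A) (hY : 0 ≤ Y) :
    A ^ m * Y ≤ ((m * A + Y) / (m + 1)) ^ (m + 1) := by
  rcases hA.eq_or_lt with h | h
  · rw [← h, zero_pow (by omega), zero_mul]
    positivity
  · have hm1 : (0 : ℝ) < m + 1 := by positivity
    have h1 := one_add_mul_le_pow (a := (Y - A) / ((m + 1) * A)) (n := m + 1) (by
      rw [le_div_iff₀ (by positivity)]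
      nlinarith)
    have e1 : 1 + (((m + 1 : ℕ) : ℝ)) * ((Y - A) / ((m + 1) * A)) = Y / A := by
      push_cast
      field_simp
      ring
    have e2 : 1 + (Y - A) / ((m + 1) * A) = ((m * A + Y) / (m + 1)) / A := by
      field_simp
      ring
    rw [e1, e2, div_pow, div_le_div_iff₀ h (by positivity), pow_succ A] at h1
    have : (A ^ m * Y) * A ≤ ((m * A + Y) / (m + 1)) ^ (m + 1) * A := by
      calc (A ^ m * Y) * A = Y * (A ^ m * A) := by ring
        _ ≤ _ := h1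
    exact le_of_mul_le_mul_right this h

lemma qc_nonneg (m : ℕ) : 0 ≤ Carath.qc m := Real.sqrt_nonneg _

lemma qc_sq (m : ℕ) : Carath.qc m ^ 2 = ((m : ℝ) + 1) ^ (m + 1) / (m : ℝ) ^ m :=
  Real.sq_sqrt (by positivity)

lemma bound (m : ℕ) (hm : 2 ≤ m) (x y s : ℝ) (hx : 0 ≤ x) (hy : 0 ≤ y) (hs : x ^ 2 + y ^ 2 ≤ s)
    (hs0 : 0 < s) (hs1 : s < 1) : Carath.qc m * x ^ m * y < s := by
  have hm0 : (0 : ℝ) < m := by exact_mod_cast (by omega : 0 < m)
  have h1 := amgm m (by omega) (x ^ 2 / m) (y ^ 2) (by positivity) (by positivity)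
  have e1 : (m : ℝ) * (x ^ 2 / m) + y ^ 2 = x ^ 2 + y ^ 2 := by
    field_simp
  rw [e1] at h1
  have h2 : (Carath.qc m * x ^ m * y) ^ 2 ≤ (x ^ 2 + y ^ 2) ^ (m + 1) := by
    have e2 : (Carath.qc m * x ^ m * y) ^ 2
        = ((m : ℝ) + 1) ^ (m + 1) * ((x ^ 2 / m) ^ m * y ^ 2) := by
      rw [mul_pow, mul_pow, qc_sq, div_pow, ← pow_mul, ← pow_mul, mul_comm 2 m]
      field_simp
    rw [e2]
    calc ((m : ℝ) + 1) ^ (m + 1) * ((x ^ 2 / m) ^ m * y ^ 2)
        ≤ ((m : ℝ) + 1) ^ (m + 1) * ((x ^ 2 + y ^ 2) / (m + 1)) ^ (m + 1) :=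
          mul_le_mul_of_nonneg_left h1 (by positivity)
      _ = _ := by
          rw [div_pow]; field_simp
  have h3 : (x ^ 2 + y ^ 2) ^ (m + 1) ≤ s ^ (m + 1) := pow_le_pow_left₀ (by positivity) hs _
  have h4 : s ^ (m + 1) < s ^ 2 := pow_lt_pow_right_of_lt_one₀ hs0 hs1 (by omega)
  exact lt_of_pow_lt_pow_left₀ 2 hs0.le (h2.trans_lt (h3.trans_lt h4))

/-- the extremal map `z ↦ z + q z_{i}^m e_{j}` -/
noncomputable def ext {n : ℕ} (i j : Fin n) (m : ℕ) (z : EuclideanSpace ℂ (Fin n)) :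
    EuclideanSpace ℂ (Fin n) :=
  z + (z i) ^ m • ((Carath.qc m : ℂ) • EuclideanSpace.single j (1 : ℂ))

/-- the coordinate functional -/
noncomputable def co {n : ℕ} (i : Fin n) : EuclideanSpace ℂ (Fin n) →L[ℂ] ℂ :=
  EuclideanSpace.proj i

lemma co_apply {n : ℕ} (i : Fin n) (z : EuclideanSpace ℂ (Fin n)) : co i z = z i := rfl

lemma ext_eq {n : ℕ} (i j : Fin n) (m : ℕ) : ext i j m = fun z : EuclideanSpace ℂ (Fin n) =>
    z + (co i z) ^ m • ((Carath.qc m : ℂ) • EuclideanSpace.single j (1 : ℂ)) := rfl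

lemma sq_add_sq_le {n : ℕ} {i j : Fin n} (hij : i ≠ j) (z : EuclideanSpace ℂ (Fin n)) :
    ‖z i‖ ^ 2 + ‖z j‖ ^ 2 ≤ ‖z‖ ^ 2 := by
  rw [EuclideanSpace.norm_sq_eq]
  have h1 : ∑ k ∈ ({i, j} : Finset (Fin n)), ‖z k‖ ^ 2 ≤ ∑ k, ‖z k‖ ^ 2 :=
    Finset.sum_le_sum_of_subset_of_nonneg (Finset.subset_univ _) fun _ _ _ => by positivity
  rwa [Finset.sum_pair hij] at h1

lemma ext_mem {n : ℕ} {i j : Fin n} (hij : i ≠ j) {m : ℕ} (hm : 2 ≤ m) :
    ext i j m ∈ CarathFamily n := by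
  refine ⟨?_, ?_, ?_, ?_⟩
  · intro z _
    rw [ext_eq]
    exact analyticAt_id.add ((((co i).analyticAt z).pow m).smul analyticAt_const)
  · unfold ext
    simp [zero_pow (show m ≠ 0 by omega)]
  · have h1 : HasFDerivAt (fun z : EuclideanSpace ℂ (Fin n) => (co i z) ^ m •
        ((Carath.qc m : ℂ) • EuclideanSpace.single j (1 : ℂ)))
        (0 : EuclideanSpace ℂ (Fin n) →L[ℂ] EuclideanSpace ℂ (Fin n)) 0 := by
      have h2 := (((co i).hasFDerivAt (x := 0)).pow m).smul_const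
        ((Carath.qc m : ℂ) • EuclideanSpace.single j (1 : ℂ))
      refine h2.congr_fderiv ?_
      rw [map_zero, zero_pow (show m - 1 ≠ 0 by omega), smul_zero]
      ext x
      simp
    have h3 := (hasFDerivAt_id (𝕜 := ℂ) (0 : EuclideanSpace ℂ (Fin n))).add h1
    rw [add_zero] at h3
    exact h3.fderiv
  · intro z hz hz0
    have hz1 : ‖z‖ < 1 := by simpa using hz
    have hzp : 0 < ‖z‖ := norm_pos_iff.mpr hz0
    have e1 : (inner ℂ z (ext i j m z)).re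
        = ‖z‖ ^ 2 + (inner ℂ z ((z i) ^ m • ((Carath.qc m : ℂ) • EuclideanSpace.single j (1 : ℂ)))).re := by
      unfold ext
      rw [inner_add_right, Complex.add_re, inner_self_eq_norm_sq_to_K]
      congr 1
      norm_cast
    have e2 : ‖inner ℂ z ((z i) ^ m • ((Carath.qc m : ℂ) • EuclideanSpace.single j (1 : ℂ)))‖
        = Carath.qc m * ‖z i‖ ^ m * ‖z j‖ := by
      rw [inner_smul_right, inner_smul_right, EuclideanSpace.inner_single_right, norm_mul,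
        norm_mul, norm_mul, norm_pow, Complex.norm_real, Real.norm_of_nonneg (qc_nonneg m)]
      simp
      ring
    have h3 := bound m hm ‖z i‖ ‖z j‖ (‖z‖ ^ 2) (norm_nonneg _) (norm_nonneg _)
      (sq_add_sq_le hij z) (by positivity) (by nlinarith)
    have h4 := Complex.abs_re_le_norm
      (inner ℂ z ((z i) ^ m • ((Carath.qc m : ℂ) • EuclideanSpace.single j (1 : ℂ))))
    rw [e2] at h4
    rw [e1]
    have := (abs_le.mp h4).1
    linarith

lemma P_ext {n : ℕ} {i j : Fin n} (m : ℕ) (hm : 2 ≤ m) :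
    P (ext i j m) m (EuclideanSpace.single i (1 : ℂ))
      = (Carath.qc m : ℂ) • EuclideanSpace.single j (1 : ℂ) := by
  set v := (Carath.qc m : ℂ) • EuclideanSpace.single j (1 : ℂ) with hv
  set e : EuclideanSpace ℂ (Fin n) := EuclideanSpace.single i (1 : ℂ) with he
  have hcd : ContDiff ℂ m (ext i j m) := by
    rw [ext_eq]
    exact contDiff_id.add (((co i).contDiff.pow m).smul contDiff_const)
  have h1 := (ContinuousLinearMap.toSpanSingleton ℂ e).iteratedFDeriv_comp_right hcd 0 (i := m) le_rfl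
  have h2 : iteratedDeriv m (ext i j m ∘ ContinuousLinearMap.toSpanSingleton ℂ e) 0
      = iteratedFDeriv ℂ m (ext i j m) 0 fun _ => e := by
    rw [iteratedDeriv_eq_iteratedFDeriv, h1]
    simp
  have h3 : (ext i j m ∘ ContinuousLinearMap.toSpanSingleton ℂ e)
      = fun t : ℂ => t • e + t ^ m • v := by
    funext t
    simp only [Function.comp_apply, ContinuousLinearMap.toSpanSingleton_apply, ext]
    congr 2
    simp [he]
  have h4 : iteratedDeriv m (fun t : ℂ => t • e + t ^ m • v) 0 = (m.factorial : ℂ) • v := by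
    rw [iteratedDeriv_fun_add (by fun_prop) (by fun_prop)]
    have h5 : iteratedDeriv m (fun t : ℂ => t • e) 0 = 0 := by
      have := iteratedDerivWithin_smul_const (𝕜 := ℂ) (n := m) (s := univ) (x := 0)
        (f := fun t : ℂ => t) (mem_univ _) uniqueDiffOn_univ (by fun_prop) e
      rw [iteratedDerivWithin_univ, iteratedDerivWithin_univ] at this
      rw [this, iteratedDeriv_fun_id_zero, if_neg (by omega), zero_smul]
    have h6 : iteratedDeriv m (fun t : ℂ => t ^ m • v) 0 = (m.factorial : ℂ) • v := by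
      have := iteratedDerivWithin_smul_const (𝕜 := ℂ) (n := m) (s := univ) (x := 0)
        (f := fun t : ℂ => t ^ m) (mem_univ _) uniqueDiffOn_univ (by fun_prop) v
      rw [iteratedDerivWithin_univ, iteratedDerivWithin_univ] at this
      rw [this, iteratedDeriv_fun_pow_zero, if_pos rfl]
    rw [h5, h6, zero_add]
  unfold P
  rw [← h2, h3, h4, smul_smul, inv_mul_cancel₀ (by exact_mod_cast m.factorial_ne_zero), one_smul]

theorem result (n m : ℕ) (hn : 2 ≤ n) (hm : 2 ≤ m) :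
    (∀ h ∈ CarathFamily n, ∀ z : EuclideanSpace ℂ (Fin n), ‖z‖ = 1 →
      ‖P h m z‖ ≤ √(((m : ℝ) + 1) ^ (m + 1) / (m : ℝ) ^ m)) ∧
    (∃ h ∈ CarathFamily n, ∃ z : EuclideanSpace ℂ (Fin n), ‖z‖ = 1 ∧
      ‖P h m z‖ = √(((m : ℝ) + 1) ^ (m + 1) / (m : ℝ) ^ m)) ∧
    C m n = √(((m : ℝ) + 1) ^ (m + 1) / (m : ℝ) ^ m) := by
  have hup : ∀ h ∈ CarathFamily n, ∀ z : EuclideanSpace ℂ (Fin n), ‖z‖ = 1 →
      ‖P h m z‖ ≤ √(((m : ℝ) + 1) ^ (m + 1) / (m : ℝ) ^ m) := fun h hh z hz => P_le hh hm z hz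
  set i : Fin n := ⟨0, by omega⟩ with hi
  set j : Fin n := ⟨1, by omega⟩ with hj
  have hij : i ≠ j := by
    intro h
    have := congrArg Fin.val h
    simp [hi, hj] at this
  have hval : ‖P (ext i j m) m (EuclideanSpace.single i (1 : ℂ))‖
      = √(((m : ℝ) + 1) ^ (m + 1) / (m : ℝ) ^ m) := by
    rw [P_ext m hm, norm_smul, Complex.norm_real, Real.norm_of_nonneg (qc_nonneg m)]
    simp [Carath.qc]
  have hsi : ‖(EuclideanSpace.single i (1 : ℂ) : EuclideanSpace ℂ (Fin n))‖ = 1 := by simp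
  refine ⟨hup, ⟨ext i j m, ext_mem hij hm, EuclideanSpace.single i 1, hsi, hval⟩, ?_⟩
  have hnp : ∀ h ∈ CarathFamily n, normP h m ≤ √(((m : ℝ) + 1) ^ (m + 1) / (m : ℝ) ^ m) := by
    intro h hh
    unfold normP
    apply Real.sSup_le
    · rintro c ⟨z, hz, rfl⟩
      exact hup h hh z hz
    · exact Real.sqrt_nonneg _
  unfold C
  apply le_antisymm
  · apply Real.sSup_le
    · rintro c ⟨h, hh, rfl⟩
      exact hnp h hh
    · exact Real.sqrt_nonneg _
  · have h1 : √(((m : ℝ) + 1) ^ (m + 1) / (m : ℝ) ^ m) ≤ normP (ext i j m) m := by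
      rw [← hval]
      unfold normP
      apply le_csSup
      · refine ⟨√(((m : ℝ) + 1) ^ (m + 1) / (m : ℝ) ^ m), ?_⟩
        rintro c ⟨z, hz, rfl⟩
        exact hup _ (ext_mem hij hm) z hz
      · exact ⟨_, hsi, rfl⟩
    refine h1.trans ?_
    apply le_csSup
    · refine ⟨√(((m : ℝ) + 1) ^ (m + 1) / (m : ℝ) ^ m), ?_⟩
      rintro c ⟨h, hh, rfl⟩
      exact hnp h hh
    · exact ⟨_, ext_mem hij hm, rfl⟩

end Pool.Agent.Results.MP_2482e1_an.SharpCoefficients
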